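import Pool.Agent.K6.H50.SPF.Core

/-!
# Sparse factors in base `g`: the three bounds
-/

set_option autoImplicit false

namespace Pool.Agent.K6.H50.SPF

open Finset Pool.Agent.N449.SF

theorem gapW {g N B : ℕ} (hg : 2 ≤ g) (hN : 1 ≤ N) {W : ℤ}
    (hW : W ^ B < (g : ℤ) ^ N) {K : ℤ} (hK0 : 0 ≤ K) (hKB : K ≤ B) {x y : ℕ}
    (h : (N : ℤ) ≤ K * ((y : ℤ) - x)) : W * (g : ℤ) ^ x < (g : ℤ) ^ y := by
  have hg0 : (0 : ℤ) < g := by exact_mod_cast (by omega : 0 < g)
  have hg1 : (1 : ℤ) ≤ g := by exact_mod_cast (by omega : 1 ≤ g)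
  have hN' : (1 : ℤ) ≤ N := by exact_mod_cast hN
  have hxy : x < y := by
    by_contra hcon
    have h1 : (y : ℤ) - x ≤ 0 := by
      have : (y : ℤ) ≤ x := by exact_mod_cast not_lt.1 hcon
      linarith
    have := mul_nonpos_of_nonneg_of_nonpos hK0 h1
    linarith
  obtain ⟨G, rfl⟩ := Nat.exists_eq_add_of_lt hxy
  have h2 : (N : ℤ) ≤ B * ((G : ℤ) + 1) := by
    calc (N : ℤ) ≤ K * (((x + G + 1 : ℕ) : ℤ) - x) := h
      _ = K * ((G : ℤ) + 1) := by push_cast; ring
      _ ≤ B * ((G : ℤ) + 1) := mul_le_mul_of_nonneg_right hKB (by positivity)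
  have h3 : N ≤ (G + 1) * B := by
    have : (N : ℤ) ≤ ((G + 1) * B : ℕ) := by push_cast; linarith
    exact_mod_cast this
  have h4 : W ^ B < ((g : ℤ) ^ (G + 1)) ^ B := by
    rw [← pow_mul]
    exact hW.trans_le (pow_le_pow_right₀ hg1 h3)
  have h5 : W < (g : ℤ) ^ (G + 1) := lt_of_pow_lt_pow_left₀ B (by positivity) h4
  calc W * (g : ℤ) ^ x < (g : ℤ) ^ (G + 1) * (g : ℤ) ^ x := mul_lt_mul_of_pos_right h5 (by positivity)
    _ = (g : ℤ) ^ (x + G + 1) := by rw [← pow_add]; congr 1; ring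

theorem away' (n C P γ w : ℤ) (hn : 0 < n) (hC : 2 * n ≤ C) (hP : 2 * C + 6 * n ≤ P)
    (hw : C + n < |w|) (hw' : 2 * |w| < P + 4 * n) :
    Even (lab C P (γ * P + w)) ∧ Far n C P (γ * P + w) := by
  rcases le_or_gt 0 w with h | h
  · rw [abs_of_nonneg h] at hw hw'
    have e1 : γ * P + w - C = γ * P + (w - C) := by ring
    have e2 : γ * P + w + C = γ * P + (w + C) := by ring
    obtain ⟨a1, a2⟩ := divmod P γ (w - C) (by linarith) (by linarith)
    obtain ⟨b1, b2⟩ := divmod P γ (w + C) (by linarith) (by linarith)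
    unfold lab Far
    rw [e1, e2, a1, a2, b1, b2]
    refine ⟨⟨γ, by ring⟩, by linarith, by linarith, by linarith, by linarith⟩
  · rw [abs_of_neg h] at hw hw'
    have e1 : γ * P + w - C = (γ - 1) * P + (P + w - C) := by ring
    have e2 : γ * P + w + C = (γ - 1) * P + (P + w + C) := by ring
    obtain ⟨a1, a2⟩ := divmod P (γ - 1) (P + w - C) (by linarith) (by linarith)
    obtain ⟨b1, b2⟩ := divmod P (γ - 1) (P + w + C) (by linarith) (by linarith)
    unfold lab Far
    rw [e1, e2, a1, a2, b1, b2]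
    refine ⟨⟨γ - 1, by ring⟩, by linarith, by linarith, by linarith, by linarith⟩

/-- The conclusion from the factorization of the polynomial. -/
theorem fin_aux {g N q B : ℕ} (hg : 2 ≤ g) (hq : q ≠ 0) (hqB : q ≤ B)
    (hE : ¬ Exc (g ^ N) B) (S T T' : Finset ℕ) (u v : ℕ → ℤ) (α β : ℕ → ℕ)
    (h : val g S u * val g T v = (g : ℤ) ^ N + 1)
    (hD : (∑ a ∈ S, Polynomial.C (u a * (g : ℤ) ^ a) * Polynomial.X ^ α a) *
      (∑ b ∈ T', Polynomial.C (v b * (g : ℤ) ^ b) * Polynomial.X ^ β b) =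
      Polynomial.C (((g ^ N : ℕ)) : ℤ) * Polynomial.X ^ q + 1) :
    |val g S u| = 1 ∨ |val g T v| = 1 := by
  have hpos : 0 < g ^ N := Nat.pow_pos (by omega)
  have e1 : (∑ a ∈ S, Polynomial.C (u a * (g : ℤ) ^ a) * Polynomial.X ^ α a).eval 1 =
      val g S u := by
    simp [Polynomial.eval_finsetSum, val]
  have e2 : (∑ b ∈ T', Polynomial.C (v b * (g : ℤ) ^ b) * Polynomial.X ^ β b).eval 1 =
      val g T' v := by
    simp [Polynomial.eval_finsetSum, val]
  have e3 : val g S u * val g T' v = (g : ℤ) ^ N + 1 := by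
    have := congrArg (Polynomial.eval 1) hD
    rw [Polynomial.eval_mul, e1, e2] at this
    rw [this]
    simp
  rcases factor hpos hq hqB hE _ _ hD with h1 | h1
  · left
    rwa [e1] at h1
  · right
    rw [e2] at h1
    have h2 : val g S u ≠ 0 := by
      intro h0
      rw [h0, zero_mul] at h
      have : (0 : ℤ) < (g : ℤ) ^ N + 1 := by positivity
      omega
    have h3 : val g T v = val g T' v := mul_left_cancel₀ h2 (h.trans e3.symm)
    rw [h3, h1]

/-- The bound for a factor with few digits. -/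
theorem one_sided {g N : ℕ} (hg : 2 ≤ g) (hN : 1 ≤ N) (S T : Finset ℕ) (u v : ℕ → ℤ)
    (h : val g S u * val g T v = (g : ℤ) ^ N + 1) (hd : |val g S u| ≠ 1) (he : |val g T v| ≠ 1)
    (hE : ¬ Exc (g ^ N) ((6 * T.card) ^ (S.card - 1))) :
    (g : ℤ) ^ N ≤ (wt S u * wt T v + 2) ^ ((6 * T.card) ^ S.card) := by
  classical
  by_contra hcon
  rw [not_le] at hcon
  have h0S : 0 ∈ S := zero_mem hg hN S u _ h
  have h0T : 0 ∈ T := zero_mem hg hN T v _ (by rw [mul_comm]; exact h)
  have hs : 1 ≤ S.card := Finset.card_pos.2 ⟨0, h0S⟩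
  obtain ⟨t, ht⟩ : ∃ t, t = T.card := ⟨_, rfl⟩
  have ht1 : 1 ≤ t := by rw [ht]; exact Finset.card_pos.2 ⟨0, h0T⟩
  rw [← ht] at hE hcon
  obtain ⟨q, hq1, hqB, hq⟩ := dirichlet N (6 * t) (by omega) (by omega) S h0S
  have hN' : (1 : ℤ) ≤ N := by exact_mod_cast hN
  have ht' : (1 : ℤ) ≤ t := by exact_mod_cast ht1
  have hq' : (1 : ℤ) ≤ q := by exact_mod_cast hq1
  have hW0 : 0 ≤ wt S u * wt T v + 2 := by
    have := mul_nonneg (wt_nonneg S u) (wt_nonneg T v)
    linarith
  -- approximation of the elements of `S`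
  have hα : ∀ a : ℕ, ∃ α : ℕ, a ∈ S → ((6 * t : ℕ) : ℤ) * |(q : ℤ) * a - α * N| < N := by
    intro a
    by_cases ha : a ∈ S
    · obtain ⟨z, hz⟩ := hq a ha
      have hz0 : 0 ≤ z := by
        by_contra hneg
        have h1 : z ≤ -1 := by omega
        have h2 : (N : ℤ) ≤ (q : ℤ) * a - z * N := by
          have : (0 : ℤ) ≤ (q : ℤ) * a := by positivity
          nlinarith
        have h3 : (N : ℤ) ≤ |(q : ℤ) * a - z * N| := h2.trans (le_abs_self _)
        have h4 : (1 : ℤ) ≤ ((6 * t : ℕ) : ℤ) := by push_cast; linarith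
        nlinarith [abs_nonneg ((q : ℤ) * a - z * N)]
      lift z to ℕ using hz0
      exact ⟨z, fun _ => hz⟩
    · exact ⟨0, fun h => absurd h ha⟩
  choose α hα using hα
  -- nearest integers for the elements of `T`
  let β : ℕ → ℕ := fun b => (2 * (q * b) + N) / (2 * N)
  have hβ : ∀ b : ℕ, 2 * |(q : ℤ) * b - β b * N| ≤ N := by
    intro b
    have h1 := Nat.div_add_mod (2 * (q * b) + N) (2 * N)
    have h2 := Nat.mod_lt (2 * (q * b) + N) (by omega : 0 < 2 * N)
    have h3 : (2 * (N : ℤ)) * β b + ((2 * (q * b) + N) % (2 * N) : ℕ) = 2 * (q * b) + N := by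
      exact_mod_cast h1
    have h4 : (((2 * (q * b) + N) % (2 * N) : ℕ) : ℤ) < 2 * N := by exact_mod_cast h2
    have h5 : (0 : ℤ) ≤ (((2 * (q * b) + N) % (2 * N) : ℕ) : ℤ) := by positivity
    rcases abs_cases ((q : ℤ) * b - β b * N) with ⟨h6, -⟩ | ⟨h6, -⟩ <;> rw [h6] <;> linarith
  have hβ0 : β 0 = 0 := by
    simp only [β]
    exact Nat.div_eq_of_lt (by omega)
  obtain ⟨k, hkt, hk⟩ := threshold N t T ht.symm h0T (fun b => |(q : ℤ) * b - β b * N|)
    (by simp [hβ0])
  have hk' : (k : ℤ) + 1 ≤ t := by exact_mod_cast hkt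
  let T' : Finset ℕ := T.filter fun b => 2 * (t : ℤ) * |(q : ℤ) * b - β b * N| ≤ k * N
  have hT' : T' ⊆ T := Finset.filter_subset _ _
  -- the labels
  set P : ℤ := 12 * t * N with hP
  set C : ℤ := (6 * k + 3) * N with hC
  have hkN : (0 : ℤ) ≤ k * N := by positivity
  have hC2 : 2 * (N : ℤ) ≤ C := by rw [hC]; linarith
  have hP6 : 2 * C + 6 * (N : ℤ) ≤ P := by
    have := mul_le_mul_of_nonneg_right hk' (by positivity : (0 : ℤ) ≤ N)
    rw [hC, hP]
    linarith
  have hN0 : (0 : ℤ) < N := by linarith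
  let V : ℕ → ℤ := fun x => 12 * t * q * x
  have hnear : ∀ a ∈ S, ∀ b ∈ T', lab C P (V (a + b)) = 2 * ((α a : ℤ) + β b) - 1 ∧
      Far N C P (V (a + b)) := by
    intro a ha b hb
    have h1 := hα a ha
    push_cast at h1
    have h2 := (Finset.mem_filter.1 hb).2
    have e : V (a + b) = ((α a : ℤ) + β b) * P +
        12 * t * (((q : ℤ) * a - α a * N) + ((q : ℤ) * b - β b * N)) := by
      simp only [V, hP]
      push_cast
      ring
    rw [e]
    refine near N C P _ _ hN0 hC2 (by linarith) ?_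
    rw [abs_mul, abs_of_nonneg (by positivity : (0 : ℤ) ≤ 12 * t)]
    have h3 := abs_add_le ((q : ℤ) * a - α a * N) ((q : ℤ) * b - β b * N)
    have h4 := mul_le_mul_of_nonneg_left h3 (by positivity : (0 : ℤ) ≤ 12 * t)
    rw [hC]
    linarith
  have haway : ∀ a ∈ S, ∀ b ∈ T, b ∉ T' → Even (lab C P (V (a + b))) ∧
      Far N C P (V (a + b)) := by
    intro a ha b hb hb'
    have h1 := hα a ha
    push_cast at h1
    have h2 : ¬ (2 * (t : ℤ) * |(q : ℤ) * b - β b * N| ≤ k * N) := by
      intro hh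
      exact hb' (Finset.mem_filter.2 ⟨hb, hh⟩)
    rw [not_le] at h2
    have h2' := hk b hb
    have h5 : ((k : ℤ) + 1) * N < 2 * t * |(q : ℤ) * b - β b * N| := by
      by_contra hh
      exact h2' ⟨h2, not_lt.1 hh⟩
    have e : V (a + b) = ((α a : ℤ) + β b) * P +
        12 * t * (((q : ℤ) * b - β b * N) + ((q : ℤ) * a - α a * N)) := by
      simp only [V, hP]
      push_cast
      ring
    rw [e]
    have h6 := hβ b
    refine away' N C P _ _ hN0 hC2 hP6 ?_ ?_
    · rw [abs_mul, abs_of_nonneg (by positivity : (0 : ℤ) ≤ 12 * t)]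
      have h3 : |(q : ℤ) * b - β b * N| - |(q : ℤ) * a - α a * N| ≤
          |((q : ℤ) * b - β b * N) + ((q : ℤ) * a - α a * N)| := by
        have := abs_add_le (((q : ℤ) * b - β b * N) + ((q : ℤ) * a - α a * N))
          (-((q : ℤ) * a - α a * N))
        rw [abs_neg, add_neg_cancel_right] at this
        linarith
      have h4 := mul_le_mul_of_nonneg_left h3 (by positivity : (0 : ℤ) ≤ 12 * t)
      rw [hC]
      linarith
    · rw [abs_mul, abs_of_nonneg (by positivity : (0 : ℤ) ≤ 12 * t)]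
      have h3 := abs_add_le ((q : ℤ) * b - β b * N) ((q : ℤ) * a - α a * N)
      have h4 := mul_le_mul_of_nonneg_left h3 (by positivity : (0 : ℤ) ≤ 12 * t)
      have h7 := mul_le_mul_of_nonneg_left h6 (by positivity : (0 : ℤ) ≤ 12 * t)
      rw [hP]
      linarith
  have hfar : ∀ a ∈ S, ∀ b ∈ T, Far N C P (V (a + b)) := by
    intro a ha b hb
    by_cases hb' : b ∈ T'
    · exact (hnear a ha b hb').2
    · exact (haway a ha b hb hb').2
  have h0 : lab C P (V 0) = -1 ∧ Far N C P (V 0) := by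
    have := near N C P 0 0 hN0 hC2 (by linarith) (by rw [abs_zero]; linarith)
    simpa [V] using this
  have h1 : lab C P (V N) = 2 * q - 1 ∧ Far N C P (V N) := by
    have := near N C P q 0 hN0 hC2 (by linarith) (by rw [abs_zero]; linarith)
    have e : V N = (q : ℤ) * P + 0 := by
      simp only [V, hP]
      ring
    rw [e]
    exact this
  have hKB : 6 * (t : ℤ) * q ≤ (((6 * t) ^ S.card : ℕ) : ℤ) := by
    have : 6 * t * q ≤ (6 * t) ^ S.card := by
      calc 6 * t * q ≤ 6 * t * (6 * t) ^ (S.card - 1) := Nat.mul_le_mul_left _ hqB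
        _ = (6 * t) ^ S.card := by rw [← pow_succ', Nat.sub_add_cancel hs]
    exact_mod_cast this
  have hgapV : ∀ x y : ℕ, Far N C P (V x) → Far N C P (V y) → lab C P (V x) < lab C P (V y) →
      (wt S u * wt T v + 2) * (g : ℤ) ^ x < (g : ℤ) ^ y := by
    intro x y hx hy hxy
    have h2 := gap N C P (V x) (V y) (by rw [hP]; positivity) hx hy hxy
    refine gapW hg hN hcon (by positivity) hKB ?_
    simp only [V] at h2
    linarith
  refine (fin_aux hg (by omega : q ≠ 0) hqB hE S T T' u v α β h ?_).elim hd he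
  refine lift hg S T T' hT' u v α β (fun p => lab C P (V (p.1 + p.2))) h
    (fun a ha b hb => (hnear a ha b hb).1) (fun a ha b hb hb' => (haway a ha b hb hb').1)
    ?_ ?_ ?_ ?_ ?_ ?_
  · intro a ha b hb a' ha' b' hb' hlt
    exact hgapV _ _ (hfar a ha b hb) (hfar a' ha' b' hb') hlt
  · intro a ha b hb hlt
    have := hgapV (a + b) 0 (hfar a ha b hb) h0.2 (by rw [h0.1]; exact hlt)
    simpa using this
  · intro a ha b hb hlt
    have := hgapV 0 (a + b) h0.2 (hfar a ha b hb) (by rw [h0.1]; exact hlt)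
    simpa using this
  · intro a ha b hb hlt
    exact hgapV (a + b) N (hfar a ha b hb) h1.2 (by rw [h1.1]; exact hlt)
  · intro a ha b hb hlt
    exact hgapV N (a + b) h1.2 (hfar a ha b hb) (by rw [h1.1]; exact hlt)
  · have := hgapV 0 N h0.2 h1.2 (by rw [h0.1, h1.1]; linarith)
    simpa using this

/-- The bound for two factors with few digits. -/
theorem two_sided {g N : ℕ} (hg : 2 ≤ g) (hN : 1 ≤ N) (S T : Finset ℕ) (u v : ℕ → ℤ)
    (h : val g S u * val g T v = (g : ℤ) ^ N + 1) (hd : |val g S u| ≠ 1) (he : |val g T v| ≠ 1)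
    (hE : ¬ Exc (g ^ N) (5 ^ (S.card + T.card - 2))) :
    (g : ℤ) ^ N ≤ (wt S u * wt T v + 2) ^ (5 ^ (S.card + T.card - 1)) := by
  classical
  by_contra hcon
  rw [not_le] at hcon
  have h0S : 0 ∈ S := zero_mem hg hN S u _ h
  have h0T : 0 ∈ T := zero_mem hg hN T v _ (by rw [mul_comm]; exact h)
  have hs : 1 ≤ S.card := Finset.card_pos.2 ⟨0, h0S⟩
  have ht : 1 ≤ T.card := Finset.card_pos.2 ⟨0, h0T⟩
  have hcard : (S ∪ T).card - 1 ≤ S.card + T.card - 2 := by
    have h1 := Finset.card_union_add_card_inter S T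
    have h2 : 1 ≤ (S ∩ T).card := Finset.card_pos.2 ⟨0, Finset.mem_inter.2 ⟨h0S, h0T⟩⟩
    omega
  obtain ⟨q, hq1, hqB, hq⟩ := dirichlet N 5 (by omega) (by omega) (S ∪ T)
    (Finset.mem_union_left _ h0S)
  have hqB' : q ≤ 5 ^ (S.card + T.card - 2) := hqB.trans (Nat.pow_le_pow_right (by norm_num) hcard)
  have hN' : (1 : ℤ) ≤ N := by exact_mod_cast hN
  have hq' : (1 : ℤ) ≤ q := by exact_mod_cast hq1
  have hW0 : 0 ≤ wt S u * wt T v + 2 := by
    have := mul_nonneg (wt_nonneg S u) (wt_nonneg T v)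
    linarith
  have hα : ∀ a : ℕ, ∃ α : ℕ, a ∈ S ∪ T → 5 * |(q : ℤ) * a - α * N| < N := by
    intro a
    by_cases ha : a ∈ S ∪ T
    · obtain ⟨z, hz⟩ := hq a ha
      have hz0 : 0 ≤ z := by
        by_contra hneg
        have h1 : z ≤ -1 := by omega
        have h2 : (N : ℤ) ≤ (q : ℤ) * a - z * N := by
          have : (0 : ℤ) ≤ (q : ℤ) * a := by positivity
          nlinarith
        have h3 : (N : ℤ) ≤ |(q : ℤ) * a - z * N| := h2.trans (le_abs_self _)
        push_cast at hz
        linarith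
      lift z to ℕ using hz0
      exact ⟨z, fun _ => by simpa using hz⟩
    · exact ⟨0, fun h => absurd h ha⟩
  choose α hα using hα
  have hKB : 5 * (q : ℤ) ≤ ((5 ^ (S.card + T.card - 1) : ℕ) : ℤ) := by
    have : 5 * q ≤ 5 ^ (S.card + T.card - 1) := by
      calc 5 * q ≤ 5 * 5 ^ (S.card + T.card - 2) := Nat.mul_le_mul_left _ hqB'
        _ = 5 ^ (S.card + T.card - 1) := by rw [← pow_succ']; congr 1; omega
    exact_mod_cast this
  -- exponents with an approximate multiple
  have hgapV : ∀ (x y : ℕ) (γ δ w w' : ℤ), (q : ℤ) * x = γ * N + w → (q : ℤ) * y = δ * N + w' →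
      5 * |w| < 2 * N → 5 * |w'| < 2 * N → γ < δ →
      (wt S u * wt T v + 2) * (g : ℤ) ^ x < (g : ℤ) ^ y := by
    intro x y γ δ w w' hx hy hw hw' hγδ
    refine gapW hg hN hcon (by positivity) hKB ?_
    have h1 := le_abs_self w
    have h2 := neg_abs_le w'
    have h3 : (N : ℤ) ≤ (δ - γ) * N := by nlinarith
    have h4 : 5 * (q : ℤ) * ((y : ℤ) - x) = 5 * ((δ - γ) * N) + 5 * w' - 5 * w := by
      linear_combination 5 * hy - 5 * hx
    rw [h4]
    linarith
  have hpair : ∀ a ∈ S, ∀ b ∈ T, ∃ w : ℤ, (q : ℤ) * ((a + b : ℕ) : ℤ) =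
      ((α a : ℤ) + α b) * N + w ∧ 5 * |w| < 2 * N := by
    intro a ha b hb
    refine ⟨((q : ℤ) * a - α a * N) + ((q : ℤ) * b - α b * N), ?_, ?_⟩
    · push_cast
      ring
    · have h1 := hα a (Finset.mem_union_left _ ha)
      have h2 := hα b (Finset.mem_union_right _ hb)
      have h3 := abs_add_le ((q : ℤ) * a - α a * N) ((q : ℤ) * b - α b * N)
      linarith
  have hz : 5 * |(0 : ℤ)| < 2 * N := by rw [abs_zero]; linarith
  refine (fin_aux hg (by omega : q ≠ 0) hqB' hE S T T u v α α h ?_).elim hd he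
  refine lift hg S T T (Finset.Subset.refl _) u v α α (fun p => 2 * ((α p.1 : ℤ) + α p.2) - 1) h
    (fun a ha b hb => rfl) (fun a ha b hb hb' => absurd hb hb')
    ?_ ?_ ?_ ?_ ?_ ?_
  · intro a ha b hb a' ha' b' hb' hlt
    obtain ⟨w, hw1, hw2⟩ := hpair a ha b hb
    obtain ⟨w', hw1', hw2'⟩ := hpair a' ha' b' hb'
    exact hgapV _ _ _ _ w w' hw1 hw1' hw2 hw2' (by simp only at hlt; linarith)
  · intro a ha b hb hlt
    exfalso
    simp only at hlt
    have : (0 : ℤ) ≤ (α a : ℤ) + α b := by positivity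
    linarith
  · intro a ha b hb hlt
    obtain ⟨w, hw1, hw2⟩ := hpair a ha b hb
    have := hgapV 0 (a + b) 0 _ 0 w (by simp) hw1 hz hw2 (by simp only at hlt; linarith)
    simpa using this
  · intro a ha b hb hlt
    obtain ⟨w, hw1, hw2⟩ := hpair a ha b hb
    exact hgapV (a + b) N _ q w 0 hw1 (by ring) hw2 hz (by simp only at hlt; linarith)
  · intro a ha b hb hlt
    obtain ⟨w, hw1, hw2⟩ := hpair a ha b hb
    exact hgapV N (a + b) q _ 0 w (by ring) hw1 hz hw2 (by simp only at hlt; linarith)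
  · have := hgapV 0 N 0 q 0 0 (by simp) (by ring) hz hz (by linarith)
    simpa using this

/-- The bound for an arbitrary divisor and the digits of the cofactor. -/
theorem divisor {g N : ℕ} (hg : 2 ≤ g) (hN : 1 ≤ N) (T : Finset ℕ) (v : ℕ → ℤ) (d : ℤ)
    (h : d * val g T v = (g : ℤ) ^ N + 1) (hd : |d| ≠ 1) :
    (g : ℤ) ^ N ≤ (|d| * wt T v + 1) ^ T.card := by
  classical
  have h0T : 0 ∈ T := zero_mem hg hN T v d (by rw [mul_comm]; exact h)
  have hg0 : (0 : ℤ) < g := by exact_mod_cast (by omega : 0 < g)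
  have hg1 : (1 : ℤ) ≤ g := by exact_mod_cast (by omega : 1 ≤ g)
  have hdV : 0 ≤ |d| * wt T v := mul_nonneg (abs_nonneg _) (wt_nonneg T v)
  set W : ℤ := |d| * wt T v + 1 with hW
  have hW1 : 1 ≤ W := by linarith
  have key : ∀ x : ℕ, (x ∈ T ∨ x = N) → x ≤ N → (g : ℤ) ^ x ≤ W ^ (T.filter (· < x)).card := by
    intro x
    induction x using Nat.strong_induction_on with
    | _ x IH =>
      intro hx hxN
      rcases Nat.eq_zero_or_pos x with rfl | hxpos
      · rw [pow_zero]
        exact one_le_pow₀ hW1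
      · have hne : (T.filter (· < x)).Nonempty := ⟨0, Finset.mem_filter.2 ⟨h0T, hxpos⟩⟩
        obtain ⟨y, hy, hmax⟩ := (T.filter (· < x)).exists_max_image id hne
        obtain ⟨hyT, hyx⟩ := Finset.mem_filter.1 hy
        have hIH := IH y hyx (Or.inl hyT) (by omega)
        -- the gap is small
        have hgap : (g : ℤ) ^ x ≤ W * (g : ℤ) ^ y := by
          by_contra hcon
          rw [not_le] at hcon
          apply hd
          have hsplit : val g T v = ∑ b ∈ T with b < x, v b * (g : ℤ) ^ b +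
              ∑ b ∈ T with ¬ b < x, v b * (g : ℤ) ^ b := by
            unfold val
            rw [Finset.sum_filter_add_sum_filter_not]
          have hdvd1 : (g : ℤ) ^ x ∣ ∑ b ∈ T with ¬ b < x, v b * (g : ℤ) ^ b := by
            refine Finset.dvd_sum fun b hb => ?_
            have := (Finset.mem_filter.1 hb).2
            exact Dvd.dvd.mul_left (pow_dvd_pow _ (by omega)) _
          have hdvd : (g : ℤ) ^ x ∣ d * (∑ b ∈ T with b < x, v b * (g : ℤ) ^ b) - 1 := by
            have e : d * (∑ b ∈ T with b < x, v b * (g : ℤ) ^ b) - 1 =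
                (g : ℤ) ^ N - d * ∑ b ∈ T with ¬ b < x, v b * (g : ℤ) ^ b := by
              rw [hsplit] at h
              linear_combination h
            rw [e]
            exact dvd_sub (pow_dvd_pow _ hxN) (Dvd.dvd.mul_left hdvd1 _)
          have habs : |d * (∑ b ∈ T with b < x, v b * (g : ℤ) ^ b) - 1| ≤ W * (g : ℤ) ^ y := by
            have h1 : |∑ b ∈ T with b < x, v b * (g : ℤ) ^ b| ≤ wt T v * (g : ℤ) ^ y := by
              calc |∑ b ∈ T with b < x, v b * (g : ℤ) ^ b|
                  ≤ ∑ b ∈ T with b < x, |v b * (g : ℤ) ^ b| := Finset.abs_sum_le_sum_abs _ _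
                _ ≤ ∑ b ∈ T with b < x, |v b| * (g : ℤ) ^ y := by
                    refine Finset.sum_le_sum fun b hb => ?_
                    rw [abs_mul, abs_of_nonneg (by positivity : (0 : ℤ) ≤ (g : ℤ) ^ b)]
                    exact mul_le_mul_of_nonneg_left (pow_le_pow_right₀ hg1 (hmax b hb))
                      (abs_nonneg _)
                _ = (∑ b ∈ T with b < x, |v b|) * (g : ℤ) ^ y := by rw [Finset.sum_mul]
                _ ≤ wt T v * (g : ℤ) ^ y := by
                    refine mul_le_mul_of_nonneg_right ?_ (by positivity)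
                    exact Finset.sum_le_sum_of_subset_of_nonneg (Finset.filter_subset _ _)
                      (fun _ _ _ => abs_nonneg _)
            have h2 := abs_sub (d * (∑ b ∈ T with b < x, v b * (g : ℤ) ^ b)) 1
            rw [abs_one, abs_mul] at h2
            have h3 := mul_le_mul_of_nonneg_left h1 (abs_nonneg d)
            have h4 : (1 : ℤ) ≤ (g : ℤ) ^ y := one_le_pow₀ hg1
            rw [hW]
            nlinarith
          have hzero := Int.eq_zero_of_abs_lt_dvd hdvd (lt_of_le_of_lt habs hcon)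
          have : d * (∑ b ∈ T with b < x, v b * (g : ℤ) ^ b) = 1 := by linarith
          exact Int.isUnit_iff_abs_eq.1 (IsUnit.of_mul_eq_one _ this)
        have hcardeq : (T.filter (· < x)).card = (T.filter (· < y)).card + 1 := by
          have e : T.filter (· < x) = insert y (T.filter (· < y)) := by
            ext b
            simp only [Finset.mem_insert, Finset.mem_filter]
            constructor
            · rintro ⟨hb, hbx⟩
              have := hmax b (Finset.mem_filter.2 ⟨hb, hbx⟩)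
              simp only [id] at this
              rcases Nat.lt_or_ge b y with h1 | h1
              · exact Or.inr ⟨hb, h1⟩
              · exact Or.inl (by omega)
            · rintro (rfl | ⟨hb, hby⟩)
              · exact ⟨hyT, hyx⟩
              · exact ⟨hb, by omega⟩
          rw [e, Finset.card_insert_of_notMem]
          simp
        rw [hcardeq, pow_succ']
        calc (g : ℤ) ^ x ≤ W * (g : ℤ) ^ y := hgap
          _ ≤ W * W ^ (T.filter (· < y)).card := mul_le_mul_of_nonneg_left hIH (by linarith)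
  calc (g : ℤ) ^ N ≤ W ^ (T.filter (· < N)).card := key N (Or.inr rfl) le_rfl
    _ ≤ W ^ T.card := pow_le_pow_right₀ hW1 (Finset.card_le_card (Finset.filter_subset _ _))

end Pool.Agent.K6.H50.SPF
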