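import Mathlib

/-!
# Irreducibility of `A X ^ q + 1` over the integers
-/

set_option autoImplicit false

namespace Pool.Agent.K6.H50.SPF

open Polynomial IntermediateField

theorem irr_aux {K : Type} [Field K] {n : ℕ} (hn : n ≠ 0) {a : K}
    (ha : ∀ p : ℕ, p.Prime → p ∣ n → ∀ b : K, b ^ p ≠ a)
    (h2 : 2 ∣ n → ∀ b : K, b ^ 2 ≠ -a) : Irreducible (X ^ n - C a) := by
  induction n using induction_on_primes generalizing K a with
  | zero => exact absurd rfl hn
  | one => simpa using irreducible_X_sub_C a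
  | prime_mul p n hp IH =>
    have hn0 : n ≠ 0 := by
      rintro rfl
      exact hn (mul_zero _)
    rw [mul_comm]
    apply X_pow_mul_sub_C_irreducible
      (X_pow_sub_C_irreducible_of_prime hp (ha p hp (dvd_mul_right _ _)))
    intro E _ _ x hx
    have hint : IsIntegral K x := not_not.mp fun h ↦ by
      simpa only [degree_zero, degree_X_pow_sub_C hp.pos,
        WithBot.natCast_ne_bot] using congr_arg degree (hx.symm.trans (dif_neg h))
    have hN : Algebra.norm K (AdjoinSimple.gen K x) = (-1) ^ (p + 1) * a := by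
      rw [← adjoin.powerBasis_gen hint, Algebra.PowerBasis.norm_gen_eq_coeff_zero_minpoly]
      simp only [adjoin.powerBasis_gen, adjoin.powerBasis_dim, minpoly_gen, hx,
        natDegree_X_pow_sub_C, coeff_sub, coeff_X_pow, coeff_C_zero]
      rw [if_neg hp.ne_zero.symm, pow_succ]
      ring
    have hNn : Algebra.norm K (-AdjoinSimple.gen K x) = -a := by
      have h1 : (-AdjoinSimple.gen K x) = algebraMap K _ (-1) * AdjoinSimple.gen K x := by
        simp
      rw [h1, map_mul, hN, Algebra.norm_algebraMap, adjoin.finrank hint, hx,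
        natDegree_X_pow_sub_C, ← mul_assoc, ← pow_add]
      rw [show p + (p + 1) = 2 * p + 1 by ring, pow_succ, pow_mul]
      simp
    apply IH hn0
    · intro q hq hqn b hb
      have h1 : (Algebra.norm K b) ^ q = (-1) ^ (p + 1) * a := by rw [← map_pow, hb, hN]
      rcases hp.eq_two_or_odd' with rfl | hodd
      · rcases hq.eq_two_or_odd' with rfl | hodd'
        · refine h2 (dvd_mul_right _ _) (Algebra.norm K b) ?_
          rw [h1]
          norm_num
        · refine ha q hq (dvd_mul_of_dvd_right hqn _) (-Algebra.norm K b) ?_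
          rw [hodd'.neg_pow, h1]
          norm_num
      · refine ha q hq (dvd_mul_of_dvd_right hqn _) (Algebra.norm K b) ?_
        rw [h1, (hodd.add_odd odd_one).neg_one_pow, one_mul]
    · intro h2n b hb
      have h1 : (Algebra.norm K b) ^ 2 = -a := by rw [← map_pow, hb, hNn]
      exact h2 (dvd_mul_of_dvd_right h2n _) _ h1

theorem irr_even {K : Type} [Field K] {A : K} {n : ℕ} (hn0 : n ≠ 0) (hsq : ∀ b : K, b ^ 2 ≠ -A)
    (h1 : ∀ l : ℕ, l.Prime → Odd l → l ∣ n → ∀ r : K, r ^ l ≠ A)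
    (h2 : 2 ∣ n → ∀ r : K, r ^ 4 ≠ 4 * A) : Irreducible (X ^ (n * 2) - C (-A) : K[X]) := by
  refine X_pow_mul_sub_C_irreducible (X_pow_sub_C_irreducible_of_prime Nat.prime_two hsq) ?_
  intro E _ _ x hx
  have hint : IsIntegral K x := not_not.mp fun h ↦ by
    simpa only [degree_zero, degree_X_pow_sub_C two_pos,
      WithBot.natCast_ne_bot] using congr_arg degree (hx.symm.trans (dif_neg h))
  have hN : Algebra.norm K (AdjoinSimple.gen K x) = A := by
    rw [← adjoin.powerBasis_gen hint, Algebra.PowerBasis.norm_gen_eq_coeff_zero_minpoly]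
    simp only [adjoin.powerBasis_gen, adjoin.powerBasis_dim, minpoly_gen, hx,
      natDegree_X_pow_sub_C, coeff_sub, coeff_X_pow, coeff_C_zero]
    norm_num
  have hg2 : (AdjoinSimple.gen K x) ^ 2 = algebraMap K _ (-A) := by
    have := minpoly.aeval K (AdjoinSimple.gen K x)
    rw [minpoly_gen, hx] at this
    simp only [map_sub, map_pow, aeval_X, aeval_C] at this
    exact sub_eq_zero.1 this
  -- squares in the quadratic field
  have key : ∀ (ε : K), ε ^ 2 = 1 → ∀ b : K⟮x⟯, b ^ 2 = algebraMap K _ ε * AdjoinSimple.gen K x →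
      ∃ r : K, r ^ 4 = 4 * A := by
    intro ε hε b hb
    obtain ⟨f, hf, hbf⟩ := (adjoin.powerBasis hint).exists_eq_aeval b
    rw [adjoin.powerBasis_dim, hx, natDegree_X_pow_sub_C] at hf
    obtain ⟨c', c, hfc⟩ := Polynomial.exists_eq_X_add_C_of_natDegree_le_one
      (show f.natDegree ≤ 1 by omega)
    rw [hfc] at hbf
    simp only [map_add, map_mul, aeval_X, aeval_C, adjoin.powerBasis_gen] at hbf
    have e1 : algebraMap K K⟮x⟯ (c ^ 2 - A * c' ^ 2) +
        algebraMap K K⟮x⟯ (2 * c * c' - ε) * AdjoinSimple.gen K x = 0 := by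
      rw [hbf] at hb
      have hneg : algebraMap K K⟮x⟯ (-A) = - algebraMap K K⟮x⟯ A := map_neg _ _
      rw [hneg] at hg2
      simp only [map_sub, map_mul, map_pow, map_ofNat]
      linear_combination hb - (algebraMap K K⟮x⟯ c') ^ 2 * hg2
    have e2 : 2 * c * c' - ε = 0 := by
      by_contra hne
      have hne' : algebraMap K K⟮x⟯ (2 * c * c' - ε) ≠ 0 := by
        rwa [Ne, map_eq_zero]
      have e3 : AdjoinSimple.gen K x =
          algebraMap K K⟮x⟯ (-(c ^ 2 - A * c' ^ 2) / (2 * c * c' - ε)) := by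
        rw [map_div₀, map_neg, eq_div_iff hne']
        linear_combination e1
      rw [e3, ← map_pow] at hg2
      exact hsq _ ((algebraMap K K⟮x⟯).injective hg2)
    have e4 : c ^ 2 - A * c' ^ 2 = 0 := by
      rw [e2, map_zero, zero_mul, add_zero] at e1
      rwa [map_eq_zero] at e1
    refine ⟨2 * c, ?_⟩
    have e5 : 2 * c * c' = ε := by linear_combination e2
    have e6 : (2 * c * c') ^ 2 = 1 := by rw [e5, hε]
    linear_combination 16 * c ^ 2 * e4 + 4 * A * e6
  apply irr_aux hn0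
  · intro p hp hpn b hb
    rcases hp.eq_two_or_odd' with rfl | hodd
    · obtain ⟨r, hr⟩ := key 1 (by norm_num) b (by rw [hb, map_one, one_mul])
      exact h2 hpn r hr
    · refine h1 p hp hodd hpn (Algebra.norm K b) ?_
      rw [← map_pow, hb, hN]
  · intro h2n b hb
    obtain ⟨r, hr⟩ := key (-1) (by norm_num) b (by rw [hb, map_neg, map_one]; ring)
    exact h2 h2n r hr

/-- For `A > 0` the polynomial `X ^ q + A` is irreducible over the rational numbers, unless `A` is
an `ℓ`-th power for an odd prime divisor `ℓ` of `q`, or `4 ∣ q` and `4 A` is a fourth power. -/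
theorem irr_rat {A : ℚ} (hA : 0 < A) {q : ℕ} (hq : q ≠ 0)
    (h1 : ∀ l : ℕ, l.Prime → Odd l → l ∣ q → ∀ r : ℚ, r ^ l ≠ A)
    (h2 : 4 ∣ q → ∀ r : ℚ, r ^ 4 ≠ 4 * A) : Irreducible (X ^ q - C (-A) : ℚ[X]) := by
  rcases Nat.even_or_odd q with hev | hodd
  · obtain ⟨n, hn⟩ := hev.two_dvd
    have hn0 : n ≠ 0 := by
      rintro rfl
      exact hq hn
    have hq2 : q = n * 2 := by omega
    have hsq : ∀ b : ℚ, b ^ 2 ≠ -A := by
      intro b hb
      have := sq_nonneg b
      linarith
    rw [hq2]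
    refine irr_even hn0 hsq (fun l hl hlo hln => h1 l hl hlo ?_) (fun h => h2 ?_)
    · rw [hq2]
      exact dvd_mul_of_dvd_left hln 2
    · obtain ⟨k, hk⟩ := h
      exact ⟨k, by omega⟩
  · apply X_pow_sub_C_irreducible_of_odd hodd
    intro p hp hpq b hb
    have hpo : Odd p := Odd.of_dvd_nat hodd hpq
    refine h1 p hp hpo hpq (-b) ?_
    rw [hpo.neg_pow, hb, neg_neg]

theorem rat_of_pow {r : ℚ} {n : ℕ} (hn : n ≠ 0) {m : ℕ} (h : r ^ n = m) : r.den = 1 := by
  have h1 : (r ^ n).den = 1 := by rw [h]; simp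
  rw [Rat.den_pow] at h1
  exact (Nat.pow_eq_one.1 h1).resolve_right hn

/-- `A` is an `ℓ`-th power for an odd prime `ℓ ≤ B`, or `A = 4 k ^ 4` and `B ≥ 4`. -/
def Exc (A B : ℕ) : Prop :=
  (∃ l h : ℕ, l.Prime ∧ Odd l ∧ l ≤ B ∧ h ^ l = A) ∨ (4 ≤ B ∧ ∃ k : ℕ, 4 * k ^ 4 = A)

theorem irr_nat {A : ℕ} (hA : 0 < A) {q B : ℕ} (hq : q ≠ 0) (hqB : q ≤ B) (hE : ¬ Exc A B) :
    Irreducible (X ^ q - C (-(1 / (A : ℚ))) : ℚ[X]) := by
  have hA' : (0 : ℚ) < A := by exact_mod_cast hA
  refine irr_rat (by positivity) hq ?_ ?_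
  · intro l hl hlo hlq r hr
    apply hE
    left
    have hr0 : r ≠ 0 := by
      rintro rfl
      rw [zero_pow hl.ne_zero] at hr
      exact (one_div_ne_zero hA'.ne') hr.symm
    have h1 : (r⁻¹) ^ l = A := by rw [inv_pow, hr, one_div, inv_inv]
    have h2 := rat_of_pow hl.ne_zero h1
    have h3 : r⁻¹ = ((r⁻¹).num : ℚ) := (Rat.coe_int_num_of_den_eq_one h2).symm
    have h4 : 0 < r⁻¹ := by
      by_contra hcon
      have := hlo.pow_nonpos (not_lt.1 hcon)
      rw [h1] at this
      linarith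
    have h5 : 0 < (r⁻¹).num := Rat.num_pos.2 h4
    refine ⟨l, (r⁻¹).num.toNat, hl, hlo, (Nat.le_of_dvd (Nat.pos_of_ne_zero hq) hlq).trans hqB, ?_⟩
    have h6 : (((r⁻¹).num.toNat : ℕ) : ℚ) = r⁻¹ := by
      conv_rhs => rw [h3]
      have : (((r⁻¹).num.toNat : ℕ) : ℤ) = (r⁻¹).num := Int.toNat_of_nonneg h5.le
      exact_mod_cast this
    have h7 : ((((r⁻¹).num.toNat) ^ l : ℕ) : ℚ) = (A : ℚ) := by
      push_cast
      rw [h6, h1]
    exact_mod_cast h7
  · intro h4q r hr
    apply hE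
    right
    refine ⟨(Nat.le_of_dvd (Nat.pos_of_ne_zero hq) h4q).trans hqB, ?_⟩
    have hr0 : r ≠ 0 := by
      rintro rfl
      have : (0 : ℚ) < 4 * (1 / A) := by positivity
      rw [← hr] at this
      norm_num at this
    have h1 : (2 / |r|) ^ 4 = ((4 * A : ℕ) : ℚ) := by
      rw [div_pow, Even.pow_abs (by decide), hr]
      push_cast
      field_simp
      norm_num
    have h2 := rat_of_pow (by norm_num) h1
    set z := 2 / |r| with hz
    have hz0 : 0 < z := by positivity
    have h3 : z = (z.num : ℚ) := (Rat.coe_int_num_of_den_eq_one h2).symm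
    have h5 : 0 < z.num := Rat.num_pos.2 hz0
    obtain ⟨w, hw⟩ : ∃ w : ℕ, z = w := by
      refine ⟨z.num.toNat, ?_⟩
      conv_lhs => rw [h3]
      have : ((z.num.toNat : ℕ) : ℤ) = z.num := Int.toNat_of_nonneg h5.le
      exact_mod_cast this.symm
    rw [hw] at h1
    have h6 : w ^ 4 = 4 * A := by exact_mod_cast h1
    have h7 : 2 ∣ w := Nat.prime_two.dvd_of_dvd_pow (n := 4) (by rw [h6]; exact ⟨2 * A, by ring⟩)
    obtain ⟨k, rfl⟩ := h7
    refine ⟨k, ?_⟩
    have h8 : (2 * k) ^ 4 = 4 * (4 * k ^ 4) := by ring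
    rw [h8] at h6
    omega

/-- Factorizations of `A X ^ q + 1` over the integers are trivial. -/
theorem factor {A : ℕ} (hA : 0 < A) {q B : ℕ} (hq : q ≠ 0) (hqB : q ≤ B) (hE : ¬ Exc A B)
    (D E : ℤ[X]) (hDE : D * E = C (A : ℤ) * X ^ q + 1) :
    |D.eval 1| = 1 ∨ |E.eval 1| = 1 := by
  have hirr := irr_nat hA hq hqB hE
  have hA' : (A : ℚ) ≠ 0 := by exact_mod_cast hA.ne'
  have h1 : D.map (Int.castRingHom ℚ) * E.map (Int.castRingHom ℚ) =
      C (A : ℚ) * (X ^ q - C (-(1 / (A : ℚ)))) := by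
    rw [← Polynomial.map_mul, hDE]
    simp only [Polynomial.map_add, Polynomial.map_mul, Polynomial.map_pow, map_X,
      Polynomial.map_one, eq_intCast, Int.cast_natCast]
    rw [mul_sub, ← C_mul, show (A : ℚ) * (-(1 / (A : ℚ))) = -1 by field_simp]
    simp
  have h2 : Irreducible (D.map (Int.castRingHom ℚ) * E.map (Int.castRingHom ℚ)) := by
    rw [h1]
    exact (irreducible_isUnit_mul (Polynomial.isUnit_C.2 (isUnit_iff_ne_zero.2 hA'))).2 hirr
  have h0 : D.eval 0 * E.eval 0 = 1 := by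
    rw [← eval_mul, hDE]
    simp [hq]
  have hinj : Function.Injective (Int.castRingHom ℚ) := Int.cast_injective
  rcases h2.isUnit_or_isUnit rfl with h | h
  · left
    have h3 : D.natDegree = 0 := by
      rw [← natDegree_map_eq_of_injective hinj D]
      exact natDegree_eq_zero_of_isUnit h
    rw [natDegree_eq_zero] at h3
    obtain ⟨c, rfl⟩ := h3
    rw [eval_C] at h0 ⊢
    exact Int.isUnit_iff_abs_eq.1 (IsUnit.of_mul_eq_one _ h0)
  · right
    have h3 : E.natDegree = 0 := by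
      rw [← natDegree_map_eq_of_injective hinj E]
      exact natDegree_eq_zero_of_isUnit h
    rw [natDegree_eq_zero] at h3
    obtain ⟨c, rfl⟩ := h3
    rw [eval_C, mul_comm] at h0
    rw [eval_C]
    exact Int.isUnit_iff_abs_eq.1 (IsUnit.of_mul_eq_one _ h0)

end Pool.Agent.K6.H50.SPF
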