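import Pool.Agent.K6.H50.SPF.Irr
import Pool.Agent.N449.SF.Core

/-!
# Sparse factors in base `g`: the block lemma and the lift to polynomials
-/

set_option autoImplicit false

namespace Pool.Agent.K6.H50.SPF

open Finset

theorem block_le {ι : Type*} (g : ℕ) (hg : 2 ≤ g) (I : Finset ι) (x : ι → ℕ) (c : ι → ℤ)
    (ℓ : ι → ℤ) (hsum : ∑ a ∈ I, c a * (g : ℤ) ^ x a = 0)
    (hgap : ∀ a ∈ I, ∀ b ∈ I, ℓ a < ℓ b → (∑ a ∈ I, |c a|) * (g : ℤ) ^ x a < (g : ℤ) ^ x b)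
    (L : ℤ) : ∑ a ∈ I with ℓ a ≤ L, c a * (g : ℤ) ^ x a = 0 := by
  classical
  have hg1 : (1 : ℤ) ≤ g := by exact_mod_cast (by omega : 1 ≤ g)
  set U := I.filter (fun a => ℓ a ≤ L) with hU
  set V := I.filter (fun a => ¬ ℓ a ≤ L) with hV
  have hUV : ∑ a ∈ U, c a * (g : ℤ) ^ x a + ∑ a ∈ V, c a * (g : ℤ) ^ x a = 0 := by
    rw [hU, hV, Finset.sum_filter_add_sum_filter_not, hsum]
  rcases U.eq_empty_or_nonempty with hUe | hUn
  · rw [hUe]; simp
  rcases V.eq_empty_or_nonempty with hVe | hVn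
  · rw [hVe] at hUV; simpa using hUV
  obtain ⟨a, haU, ha⟩ := U.exists_max_image x hUn
  obtain ⟨b, hbV, hb⟩ := V.exists_min_image x hVn
  have haI : a ∈ I := (Finset.mem_filter.1 haU).1
  have hbI : b ∈ I := (Finset.mem_filter.1 hbV).1
  have hab : ℓ a < ℓ b := lt_of_le_of_lt (Finset.mem_filter.1 haU).2
    (not_le.1 (Finset.mem_filter.1 hbV).2)
  have hgp := hgap a haI b hbI hab
  have hdV : (g : ℤ) ^ x b ∣ ∑ a ∈ V, c a * (g : ℤ) ^ x a := by
    refine Finset.dvd_sum fun i hi => ?_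
    exact Dvd.dvd.mul_left (pow_dvd_pow (g : ℤ) (hb i hi)) _
  have hdU : (g : ℤ) ^ x b ∣ ∑ a ∈ U, c a * (g : ℤ) ^ x a := by
    have : ∑ a ∈ U, c a * (g : ℤ) ^ x a = -∑ a ∈ V, c a * (g : ℤ) ^ x a := by linarith
    rw [this]
    exact hdV.neg_right
  have hle : |∑ a ∈ U, c a * (g : ℤ) ^ x a| ≤ (∑ a ∈ I, |c a|) * (g : ℤ) ^ x a := by
    calc |∑ a ∈ U, c a * (g : ℤ) ^ x a| ≤ ∑ i ∈ U, |c i * (g : ℤ) ^ x i| :=
          Finset.abs_sum_le_sum_abs _ _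
      _ ≤ ∑ i ∈ U, |c i| * (g : ℤ) ^ x a := by
          refine Finset.sum_le_sum fun i hi => ?_
          rw [abs_mul, abs_of_nonneg (by positivity : (0 : ℤ) ≤ (g : ℤ) ^ x i)]
          exact mul_le_mul_of_nonneg_left (pow_le_pow_right₀ hg1 (ha i hi)) (abs_nonneg _)
      _ = (∑ i ∈ U, |c i|) * (g : ℤ) ^ x a := by rw [Finset.sum_mul]
      _ ≤ (∑ i ∈ I, |c i|) * (g : ℤ) ^ x a := by
          refine mul_le_mul_of_nonneg_right ?_ (by positivity)
          exact Finset.sum_le_sum_of_subset_of_nonneg (Finset.filter_subset _ _)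
            (fun _ _ _ => abs_nonneg _)
  exact Int.eq_zero_of_abs_lt_dvd hdU (lt_of_le_of_lt hle hgp)

/-- The block lemma. -/
theorem block {ι : Type*} (g : ℕ) (hg : 2 ≤ g) (I : Finset ι) (x : ι → ℕ) (c : ι → ℤ)
    (ℓ : ι → ℤ) (hsum : ∑ a ∈ I, c a * (g : ℤ) ^ x a = 0)
    (hgap : ∀ a ∈ I, ∀ b ∈ I, ℓ a < ℓ b → (∑ a ∈ I, |c a|) * (g : ℤ) ^ x a < (g : ℤ) ^ x b)
    (L : ℤ) : ∑ a ∈ I with ℓ a = L, c a * (g : ℤ) ^ x a = 0 := by
  classical
  have h1 := block_le g hg I x c ℓ hsum hgap L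
  have h2 := block_le g hg I x c ℓ hsum hgap (L - 1)
  have h3 : ∑ a ∈ I with ℓ a ≤ L, c a * (g : ℤ) ^ x a
      = ∑ a ∈ I with ℓ a ≤ L - 1, c a * (g : ℤ) ^ x a
        + ∑ a ∈ I with ℓ a = L, c a * (g : ℤ) ^ x a := by
    rw [← Finset.sum_union]
    · congr 1
      ext a
      simp only [Finset.mem_filter, Finset.mem_union]
      constructor
      · rintro ⟨h, h'⟩
        rcases lt_or_eq_of_le h' with h'' | h''
        · left; exact ⟨h, by omega⟩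
        · right; exact ⟨h, h''⟩
      · rintro (⟨h, h'⟩ | ⟨h, h'⟩)
        · exact ⟨h, by omega⟩
        · exact ⟨h, by omega⟩
    · rw [Finset.disjoint_left]
      intro a ha ha'
      have := (Finset.mem_filter.1 ha).2
      have := (Finset.mem_filter.1 ha').2
      omega
  rw [h1, h2] at h3
  linarith

/-- The number with the digits `u` at the places `S` in base `g`. -/
def val (g : ℕ) (S : Finset ℕ) (u : ℕ → ℤ) : ℤ := ∑ a ∈ S, u a * (g : ℤ) ^ a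

/-- The sum of the absolute values of the digits. -/
def wt (S : Finset ℕ) (u : ℕ → ℤ) : ℤ := ∑ a ∈ S, |u a|

theorem wt_nonneg (S : Finset ℕ) (u : ℕ → ℤ) : 0 ≤ wt S u :=
  Finset.sum_nonneg fun _ _ => abs_nonneg _

theorem zero_mem {g N : ℕ} (hg : 2 ≤ g) (hN : 1 ≤ N) (S : Finset ℕ) (u : ℕ → ℤ) (e : ℤ)
    (h : val g S u * e = (g : ℤ) ^ N + 1) : 0 ∈ S := by
  by_contra hcon
  have h1 : (g : ℤ) ∣ val g S u := by
    refine Finset.dvd_sum fun a ha => ?_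
    have ha0 : a ≠ 0 := by
      rintro rfl
      exact hcon ha
    exact Dvd.dvd.mul_left (dvd_pow_self _ ha0) _
  have h2 : (g : ℤ) ∣ (g : ℤ) ^ N + 1 := by
    rw [← h]
    exact Dvd.dvd.mul_right h1 _
  have h3 : (g : ℤ) ∣ 1 := (Int.dvd_add_right (dvd_pow_self _ (by omega))).1 h2
  have h4 := Int.le_of_dvd one_pos h3
  omega

open Polynomial in
/-- The lift to polynomials. The index set of the terms is `S × T` with two more elements, for
`-1` and `-g ^ N`. -/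
theorem lift {g N q : ℕ} (hg : 2 ≤ g) (S T T' : Finset ℕ)
    (hT' : T' ⊆ T) (u v : ℕ → ℤ) (α β : ℕ → ℕ) (ℓ : ℕ × ℕ → ℤ)
    (h : val g S u * val g T v = (g : ℤ) ^ N + 1)
    (hnear : ∀ a ∈ S, ∀ b ∈ T', ℓ (a, b) = 2 * ((α a : ℤ) + β b) - 1)
    (haway : ∀ a ∈ S, ∀ b ∈ T, b ∉ T' → Even (ℓ (a, b)))
    (g1 : ∀ a ∈ S, ∀ b ∈ T, ∀ a' ∈ S, ∀ b' ∈ T, ℓ (a, b) < ℓ (a', b') →
      (wt S u * wt T v + 2) * (g : ℤ) ^ (a + b) < (g : ℤ) ^ (a' + b'))
    (g2 : ∀ a ∈ S, ∀ b ∈ T, ℓ (a, b) < -1 → (wt S u * wt T v + 2) * (g : ℤ) ^ (a + b) < 1)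
    (g3 : ∀ a ∈ S, ∀ b ∈ T, -1 < ℓ (a, b) → (wt S u * wt T v + 2) < (g : ℤ) ^ (a + b))
    (g4 : ∀ a ∈ S, ∀ b ∈ T, ℓ (a, b) < 2 * q - 1 →
      (wt S u * wt T v + 2) * (g : ℤ) ^ (a + b) < (g : ℤ) ^ N)
    (g5 : ∀ a ∈ S, ∀ b ∈ T, 2 * q - 1 < ℓ (a, b) →
      (wt S u * wt T v + 2) * (g : ℤ) ^ N < (g : ℤ) ^ (a + b))
    (g6 : (wt S u * wt T v + 2) < (g : ℤ) ^ N) :
    (∑ a ∈ S, C (u a * (g : ℤ) ^ a) * X ^ α a) * (∑ b ∈ T', C (v b * (g : ℤ) ^ b) * X ^ β b) =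
      C (((g ^ N : ℕ)) : ℤ) * X ^ q + 1 := by
  classical
  have hg1 : (1 : ℤ) ≤ g := by exact_mod_cast (by omega : 1 ≤ g)
  set W := wt S u * wt T v + 2 with hW
  let I : Finset ((ℕ × ℕ) ⊕ Bool) := (S ×ˢ T).disjSum Finset.univ
  let x : (ℕ × ℕ) ⊕ Bool → ℕ := Sum.elim (fun p => p.1 + p.2) (fun b => cond b N 0)
  let c : (ℕ × ℕ) ⊕ Bool → ℤ := Sum.elim (fun p => u p.1 * v p.2) (fun _ => -1)
  let lb : (ℕ × ℕ) ⊕ Bool → ℤ := Sum.elim ℓ (fun b => cond b (2 * (q : ℤ) - 1) (-1))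
  have hsum : ∑ a ∈ I, c a * (g : ℤ) ^ x a = 0 := by
    simp only [I, Finset.sum_disjSum, c, x, Sum.elim_inl, Sum.elim_inr, Fintype.sum_bool]
    rw [cond_true, cond_false, pow_zero, Finset.sum_product]
    have : ∑ a ∈ S, ∑ b ∈ T, u a * v b * (g : ℤ) ^ (a + b) = val g S u * val g T v := by
      unfold val
      rw [Finset.sum_mul_sum]
      refine Finset.sum_congr rfl fun a _ => Finset.sum_congr rfl fun b _ => ?_
      rw [pow_add]
      ring
    rw [this, h]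
    ring
  have hwt : ∑ a ∈ I, |c a| = W := by
    simp only [I, Finset.sum_disjSum, c, Sum.elim_inl, Sum.elim_inr, Fintype.sum_bool]
    rw [Finset.sum_product]
    have : ∑ a ∈ S, ∑ b ∈ T, |u a * v b| = wt S u * wt T v := by
      unfold wt
      rw [Finset.sum_mul_sum]
      refine Finset.sum_congr rfl fun a _ => Finset.sum_congr rfl fun b _ => ?_
      rw [abs_mul]
    rw [this, hW]
    norm_num
  have hgap : ∀ a ∈ I, ∀ b ∈ I, lb a < lb b → (∑ a ∈ I, |c a|) * (g : ℤ) ^ x a < (g : ℤ) ^ x b := by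
    rw [hwt]
    rintro (⟨a, b⟩ | ε) hab (⟨a', b'⟩ | ε') hab' hlt
    · obtain ⟨ha, hb⟩ := Finset.mem_product.1 (Finset.inl_mem_disjSum.1 hab)
      obtain ⟨ha', hb'⟩ := Finset.mem_product.1 (Finset.inl_mem_disjSum.1 hab')
      exact g1 a ha b hb a' ha' b' hb' hlt
    · obtain ⟨ha, hb⟩ := Finset.mem_product.1 (Finset.inl_mem_disjSum.1 hab)
      cases ε'
      · simpa [x] using g2 a ha b hb (by simpa [lb] using hlt)
      · simpa [x] using g4 a ha b hb (by simpa [lb] using hlt)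
    · obtain ⟨ha', hb'⟩ := Finset.mem_product.1 (Finset.inl_mem_disjSum.1 hab')
      cases ε
      · simpa [x] using g3 a' ha' b' hb' (by simpa [lb] using hlt)
      · simpa [x] using g5 a' ha' b' hb' (by simpa [lb] using hlt)
    · cases ε <;> cases ε' <;> simp [lb] at hlt
      · simpa [x] using g6
      · omega
  have hblock := fun L => block g hg I x c lb hsum hgap L
  ext k
  have hk : ∑ p ∈ S ×ˢ T, (if ℓ p = 2 * (k : ℤ) - 1 then u p.1 * v p.2 * (g : ℤ) ^ (p.1 + p.2)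
      else 0) + ((if 2 * (q : ℤ) - 1 = 2 * (k : ℤ) - 1 then -1 * (g : ℤ) ^ N else 0) +
      (if (-1 : ℤ) = 2 * (k : ℤ) - 1 then -1 * (g : ℤ) ^ 0 else 0)) = 0 := by
    have h1 := hblock (2 * (k : ℤ) - 1)
    rw [Finset.sum_filter, Finset.sum_disjSum, Fintype.sum_bool] at h1
    exact h1
  rw [Finset.sum_product] at hk
  have e1 : ((∑ a ∈ S, C (u a * (g : ℤ) ^ a) * X ^ α a) *
      (∑ b ∈ T', C (v b * (g : ℤ) ^ b) * X ^ β b)).coeff k =
      ∑ a ∈ S, ∑ b ∈ T', if α a + β b = k then u a * v b * (g : ℤ) ^ (a + b) else 0 := by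
    rw [Finset.sum_mul_sum, finsetSum_coeff]
    refine Finset.sum_congr rfl fun a _ => ?_
    rw [finsetSum_coeff]
    refine Finset.sum_congr rfl fun b _ => ?_
    rw [show C (u a * (g : ℤ) ^ a) * X ^ α a * (C (v b * (g : ℤ) ^ b) * X ^ β b) =
      C (u a * v b * (g : ℤ) ^ (a + b)) * X ^ (α a + β b) by
        rw [pow_add, pow_add]
        simp only [C_mul]
        ring, coeff_C_mul_X_pow]
    by_cases hh : k = α a + β b
    · rw [if_pos hh, if_pos hh.symm]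
    · rw [if_neg hh, if_neg (fun h => hh h.symm)]
  have e2 : ∑ a ∈ S, ∑ b ∈ T, (if ℓ (a, b) = 2 * (k : ℤ) - 1 then
      u a * v b * (g : ℤ) ^ (a + b) else 0) =
      ∑ a ∈ S, ∑ b ∈ T', if α a + β b = k then u a * v b * (g : ℤ) ^ (a + b) else 0 := by
    refine Finset.sum_congr rfl fun a ha => ?_
    rw [← Finset.sum_subset hT' (f := fun b => if ℓ (a, b) = 2 * (k : ℤ) - 1 then
      u a * v b * (g : ℤ) ^ (a + b) else 0)]
    · refine Finset.sum_congr rfl fun b hb => ?_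
      rw [hnear a ha b hb]
      by_cases hh : α a + β b = k
      · rw [if_pos hh, if_pos (by rw [← hh]; push_cast; ring)]
      · rw [if_neg hh, if_neg (fun h => hh (by omega))]
    · intro b hb hb'
      rw [if_neg]
      intro hh
      have := haway a ha b hb hb'
      rw [hh] at this
      obtain ⟨m, hm⟩ := this
      omega
  rw [e1, ← e2]
  have e3 : ∀ (P : Prop) [Decidable P] (z : ℤ), (if P then -1 * z else 0) = -(if P then z else 0) := by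
    intro P _ z
    split_ifs <;> simp
  rw [e3, e3] at hk
  rw [coeff_add, coeff_C_mul_X_pow, coeff_one]
  have e4 : (if (2 * (q : ℤ) - 1 = 2 * (k : ℤ) - 1) then (g : ℤ) ^ N else 0) =
      if k = q then ((g ^ N : ℕ) : ℤ) else 0 := by
    by_cases hh : k = q
    · rw [if_pos hh, if_pos (by rw [hh])]; push_cast; rfl
    · rw [if_neg hh, if_neg (fun h => hh (by omega))]
  have e5 : (if (-1 : ℤ) = 2 * (k : ℤ) - 1 then (g : ℤ) ^ 0 else 0) = if k = 0 then 1 else 0 := by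
    by_cases hh : k = 0
    · rw [if_pos hh, if_pos (by rw [hh]; simp)]; simp
    · rw [if_neg hh, if_neg (fun h => hh (by omega))]
  rw [e4, e5] at hk
  linarith

end Pool.Agent.K6.H50.SPF
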